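import Pool.Agent.Lib.MP_405077_mp.Defs

/-!
Module POT of MP_405077_mp: potentials of bounded functions with bounded support.
-/

set_option autoImplicit false

open MeasureTheory Set Filter Topology Metric

namespace Pool.Agent.Lib.MP_405077_mp.H61

/-- Integrability of the truncated powers of the norm. -/
theorem powInt (s : ℝ) (hs : s < 3) :
    Integrable (fun z : E3 => (ball (0 : E3) 1).indicator (fun z => ‖z‖ ^ (-s)) z) := by
  rw [integrable_indicator_iff measurableSet_ball]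
  refine integrableOn_ball_of_norm_le_rpow (C := 1) (α := s) (by simp) (by simpa using hs)
    (ae_of_all _ (fun z => ?_)) (measurable_norm.pow_const _).aestronglyMeasurable
  rw [one_mul, Real.norm_of_nonneg (Real.rpow_nonneg (norm_nonneg _) _)]

/-- The weighted kernels are uniformly integrable. -/
theorem kernInt (q : E3 → ℝ) (hq : BC q) (s : ℝ) (hs0 : 0 ≤ s) (hs : s < 3) :
    ∃ C : ℝ, 0 ≤ C ∧ ∀ x : E3, Integrable (fun y => |q y| * ‖x - y‖ ^ (-s)) ∧
      ∫ y, |q y| * ‖x - y‖ ^ (-s) ≤ C := by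
  obtain ⟨M, hM⟩ := hq.bdd
  obtain ⟨r, hr⟩ := hq.supp
  have hM0 : 0 ≤ M := (abs_nonneg _).trans (hM 0)
  set g : E3 → ℝ := fun z => (ball (0 : E3) 1).indicator (fun z => ‖z‖ ^ (-s)) z with hg
  have hgi : Integrable g := powInt s hs
  have hg0 : ∀ z, 0 ≤ g z := fun z => by
    simp only [hg]
    exact indicator_nonneg (fun z _ => Real.rpow_nonneg (norm_nonneg _) _) z
  set b : E3 → ℝ := fun y => (closedBall (0 : E3) r).indicator (fun _ => (1 : ℝ)) y with hb
  have hbi : Integrable b := by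
    rw [hb, integrable_indicator_iff measurableSet_closedBall]
    exact integrableOn_const (measure_closedBall_lt_top.ne) (by simp)
  have hle : ∀ x y : E3, |q y| * ‖x - y‖ ^ (-s) ≤ M * (g (x - y) + b y) := by
    intro x y
    by_cases hy : r < ‖y‖
    · rw [hr y hy]
      simp only [abs_zero, zero_mul]
      exact mul_nonneg hM0 (add_nonneg (hg0 _) (indicator_nonneg (fun _ _ => zero_le_one) _))
    · have hb1 : b y = 1 := by
        simp only [hb]
        rw [indicator_of_mem]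
        simpa using not_lt.mp hy
      have h1 : ‖x - y‖ ^ (-s) ≤ g (x - y) + b y := by
        rw [hb1]
        by_cases hz : ‖x - y‖ < 1
        · have : g (x - y) = ‖x - y‖ ^ (-s) := by
            simp only [hg]
            rw [indicator_of_mem]
            simpa using hz
          rw [this]
          linarith
        · have h2 : ‖x - y‖ ^ (-s) ≤ 1 :=
            Real.rpow_le_one_of_one_le_of_nonpos (not_lt.mp hz) (by linarith)
          linarith [hg0 (x - y)]
      exact mul_le_mul (hM y) h1 (Real.rpow_nonneg (norm_nonneg _) _) hM0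
  have hbound : ∀ x : E3, Integrable (fun y => M * (g (x - y) + b y)) := fun x =>
    ((hgi.comp_sub_left x).add hbi).const_mul M
  have hint : ∀ x : E3, Integrable (fun y => |q y| * ‖x - y‖ ^ (-s)) := by
    intro x
    refine (hbound x).mono' ?_ (ae_of_all _ (fun y => ?_))
    · have h1 : Measurable (fun y => |q y|) := hq.meas.norm
      have h2 : Measurable (fun y : E3 => ‖x - y‖ ^ (-s)) :=
        (measurable_norm.comp (measurable_const.sub measurable_id)).pow_const _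
      exact (h1.mul h2).aestronglyMeasurable
    · rw [Real.norm_of_nonneg (mul_nonneg (abs_nonneg _) (Real.rpow_nonneg (norm_nonneg _) _))]
      exact hle x y
  refine ⟨M * ((∫ z, g z) + ∫ y, b y), ?_, fun x => ⟨hint x, ?_⟩⟩
  · exact mul_nonneg hM0 (add_nonneg (integral_nonneg hg0)
      (integral_nonneg (fun y => indicator_nonneg (fun _ _ => zero_le_one) _)))
  · calc ∫ y, |q y| * ‖x - y‖ ^ (-s) ≤ ∫ y, M * (g (x - y) + b y) :=
        integral_mono (hint x) (hbound x) (hle x)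
      _ = M * ((∫ z, g z) + ∫ y, b y) := by
        rw [integral_const_mul, integral_add (hgi.comp_sub_left x) hbi,
          integral_sub_left_eq_self g volume x]

theorem normPot (q : E3 → ℝ) (x y : E3) :
    ‖q y / ‖x - y‖‖ = |q y| * ‖x - y‖ ^ (-1 : ℝ) := by
  rw [norm_div, norm_norm, Real.rpow_neg_one, Real.norm_eq_abs, div_eq_mul_inv]

theorem normField (q : E3 → ℝ) (x y : E3) :
    ‖(q y / ‖x - y‖ ^ 3) • (y - x)‖ = |q y| * ‖x - y‖ ^ (-2 : ℝ) := by
  rw [norm_smul, norm_div, norm_pow, norm_norm, Real.norm_eq_abs, norm_sub_rev y x]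
  rcases eq_or_ne (‖x - y‖) 0 with h | h
  · rw [h]
    norm_num
  · have h0 : 0 < ‖x - y‖ := lt_of_le_of_ne (norm_nonneg _) (Ne.symm h)
    rw [show (-2 : ℝ) = -((2 : ℕ) : ℝ) by norm_num, Real.rpow_neg h0.le, Real.rpow_natCast]
    field_simp

theorem integrablePot (q : E3 → ℝ) (hq : BC q) (x : E3) :
    Integrable (fun y => q y / ‖x - y‖) := by
  obtain ⟨C, hC0, hC⟩ := kernInt q hq 1 (by norm_num) (by norm_num)
  refine (hC x).1.mono' ?_ (ae_of_all _ (fun y => ?_))
  · exact (hq.meas.div (measurable_const.sub measurable_id).norm).aestronglyMeasurable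
  · rw [normPot]

theorem measField (q : E3 → ℝ) (hq : BC q) (x : E3) :
    Measurable (fun y => (q y / ‖x - y‖ ^ 3) • (y - x)) := by
  exact (hq.meas.div ((measurable_const.sub measurable_id).norm.pow_const _)).smul
    (measurable_id.sub measurable_const)

theorem integrableField (q : E3 → ℝ) (hq : BC q) (x : E3) :
    Integrable (fun y => (q y / ‖x - y‖ ^ 3) • (y - x)) := by
  obtain ⟨C, hC0, hC⟩ := kernInt q hq 2 (by norm_num) (by norm_num)
  refine (hC x).1.mono' (measField q hq x).aestronglyMeasurable (ae_of_all _ (fun y => ?_))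
  rw [normField]

/-- Decay of the potential. -/
theorem decay (q : E3 → ℝ) (hq : BC q) : ∃ C : ℝ, ∀ x, |pot q x| * (1 + ‖x‖) ≤ C := by
  obtain ⟨C, hC0, hC⟩ := kernInt q hq 1 (by norm_num) (by norm_num)
  obtain ⟨C', hC0', hC'⟩ := kernInt q hq 0 (by norm_num) (by norm_num)
  obtain ⟨r₀, hr₀⟩ := hq.supp
  set r := max r₀ 1 with hrdef
  have hr1 : 1 ≤ r := le_max_right _ _
  have hr : ∀ x, r < ‖x‖ → q x = 0 := fun x hx => hr₀ x (lt_of_le_of_lt (le_max_left _ _) hx)
  have hpot : ∀ x, |pot q x| ≤ ∫ y, |q y| * ‖x - y‖ ^ (-1 : ℝ) := by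
    intro x
    rw [← Real.norm_eq_abs]
    refine (norm_integral_le_integral_norm _).trans (le_of_eq ?_)
    exact integral_congr_ae (ae_of_all _ (fun y => normPot q x y))
  refine ⟨C * (1 + 2 * r) + 4 * C', fun x => ?_⟩
  by_cases hx : ‖x‖ ≤ 2 * r
  · have h1 : |pot q x| ≤ C := (hpot x).trans (hC x).2
    have : |pot q x| * (1 + ‖x‖) ≤ C * (1 + 2 * r) :=
      mul_le_mul h1 (by linarith) (by positivity) hC0
    linarith
  · push Not at hx
    have hx0 : 0 < ‖x‖ := by linarith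
    have h2 : ∀ y, |q y| * ‖x - y‖ ^ (-1 : ℝ) ≤ (2 / ‖x‖) * (|q y| * ‖x - y‖ ^ (-0 : ℝ)) := by
      intro y
      rw [neg_zero, Real.rpow_zero, mul_one]
      by_cases hy : r < ‖y‖
      · rw [hr y hy]
        simp
      · push Not at hy
        have h3 : ‖x‖ / 2 ≤ ‖x - y‖ := by
          have := norm_sub_norm_le x y
          linarith
        have h4 : ‖x - y‖ ^ (-1 : ℝ) ≤ 2 / ‖x‖ := by
          rw [Real.rpow_neg_one, show (2 : ℝ) / ‖x‖ = (‖x‖ / 2)⁻¹ by rw [inv_div]]
          exact inv_anti₀ (by positivity) h3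
        calc |q y| * ‖x - y‖ ^ (-1 : ℝ) ≤ |q y| * (2 / ‖x‖) :=
              mul_le_mul_of_nonneg_left h4 (abs_nonneg _)
          _ = (2 / ‖x‖) * |q y| := mul_comm _ _
    have h5 : |pot q x| ≤ (2 / ‖x‖) * C' := by
      refine (hpot x).trans ?_
      calc ∫ y, |q y| * ‖x - y‖ ^ (-1 : ℝ)
          ≤ ∫ y, (2 / ‖x‖) * (|q y| * ‖x - y‖ ^ (-0 : ℝ)) :=
            integral_mono (hC x).1 ((hC' x).1.const_mul _) h2
        _ = (2 / ‖x‖) * ∫ y, |q y| * ‖x - y‖ ^ (-0 : ℝ) := integral_const_mul _ _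
        _ ≤ (2 / ‖x‖) * C' := mul_le_mul_of_nonneg_left (hC' x).2 (by positivity)
    have h6 : (1 + ‖x‖) ≤ 2 * ‖x‖ := by linarith
    have h7 : |pot q x| * (1 + ‖x‖) ≤ ((2 / ‖x‖) * C') * (2 * ‖x‖) :=
      mul_le_mul h5 h6 (by positivity) (by positivity)
    have h8 : ((2 / ‖x‖) * C') * (2 * ‖x‖) = 4 * C' := by
      field_simp
      ring
    have h9 : 0 ≤ C * (1 + 2 * r) := by positivity
    linarith

/-! ### Regularised kernels -/

/-- Regularised potential. -/
noncomputable def potR (q : E3 → ℝ) (d : ℝ) (x : E3) : ℝ :=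
  ∫ y, q y * (√(‖x - y‖ ^ 2 + d ^ 2))⁻¹

/-- Regularised field. -/
noncomputable def fieldR (q : E3 → ℝ) (d : ℝ) (x : E3) : E3 :=
  ∫ y, (q y / √(‖x - y‖ ^ 2 + d ^ 2) ^ 3) • (y - x)

theorem sqrtPos (x : E3) {d : ℝ} (_hd : 0 < d) : 0 < √(‖x‖ ^ 2 + d ^ 2) := by positivity

theorem sqrtGe (x : E3) {d : ℝ} (_hd : 0 < d) : d ≤ √(‖x‖ ^ 2 + d ^ 2) := by
  apply Real.le_sqrt_of_sq_le
  nlinarith [sq_nonneg ‖x‖]

theorem sqrtGeN (x : E3) (d : ℝ) : ‖x‖ ≤ √(‖x‖ ^ 2 + d ^ 2) := by
  apply Real.le_sqrt_of_sq_le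
  nlinarith [sq_nonneg d]

theorem sqrtLe {a d : ℝ} (ha : 0 ≤ a) (hd : 0 ≤ d) : √(a ^ 2 + d ^ 2) ≤ a + d := by
  rw [Real.sqrt_le_left (by positivity)]
  nlinarith [mul_nonneg ha hd]

/-- The derivative of the regularised kernel. -/
theorem hasFDerivKer (y x : E3) (c : ℝ) {d : ℝ} (hd : 0 < d) :
    HasFDerivAt (fun x : E3 => c * (√(‖x - y‖ ^ 2 + d ^ 2))⁻¹)
      ((c / √(‖x - y‖ ^ 2 + d ^ 2) ^ 3) • innerSL ℝ (y - x)) x := by
  have hs : 0 < √(‖x - y‖ ^ 2 + d ^ 2) := sqrtPos (x - y) hd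
  have hpos : 0 < ‖x - y‖ ^ 2 + d ^ 2 := by positivity
  have h1 : HasFDerivAt (fun x : E3 => ‖x - y‖ ^ 2 + d ^ 2) (2 • innerSL ℝ (x - y)) x := by
    have := (((hasFDerivAt_id x).sub_const y).norm_sq).add_const (d ^ 2)
    simpa [ContinuousLinearMap.comp_id] using this
  have h2 := (hasDerivAt_inv hs.ne').comp_hasFDerivAt x (h1.sqrt hpos.ne')
  have h3 := h2.const_mul c
  refine h3.congr_fderiv ?_
  ext v
  simp only [smul_apply, innerSL_apply_apply, smul_eq_mul, neg_apply, neg_smul, nsmul_eq_mul,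
    Nat.cast_ofNat]
  rw [← neg_sub x y, inner_neg_left]
  have h4 : √(‖x - y‖ ^ 2 + d ^ 2) ≠ 0 := hs.ne'
  field_simp

/-- The regularised kernel is integrable against `q`. -/
theorem integrableInd (q : E3 → ℝ) (hq : BC q) : Integrable (fun y => |q y|) := by
  obtain ⟨C, _, hC⟩ := kernInt q hq 0 (by norm_num) (by norm_num)
  have := (hC 0).1
  simpa using this

theorem integrablePotR (q : E3 → ℝ) (hq : BC q) {d : ℝ} (hd : 0 < d) (x : E3) :
    Integrable (fun y => q y * (√(‖x - y‖ ^ 2 + d ^ 2))⁻¹) := by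
  refine ((integrableInd q hq).mul_const (d⁻¹)).mono' ?_ (ae_of_all _ (fun y => ?_))
  · exact (hq.meas.mul (((((measurable_const.sub measurable_id).norm.pow_const 2).add_const
      (d ^ 2)).sqrt).inv)).aestronglyMeasurable
  · rw [norm_mul, norm_inv, Real.norm_eq_abs, Real.norm_of_nonneg (Real.sqrt_nonneg _)]
    exact mul_le_mul_of_nonneg_left (inv_anti₀ hd (sqrtGe (x - y) hd)) (abs_nonneg _)

theorem measFieldR (q : E3 → ℝ) (hq : BC q) (d : ℝ) (x : E3) :
    Measurable (fun y => (q y / √(‖x - y‖ ^ 2 + d ^ 2) ^ 3) • (y - x)) := by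
  exact (hq.meas.div (((((measurable_const.sub measurable_id).norm.pow_const 2).add_const
      (d ^ 2)).sqrt).pow_const 3)).smul (measurable_id.sub measurable_const)

theorem normFieldR (q : E3 → ℝ) {d : ℝ} (hd : 0 < d) (x y : E3) :
    ‖(q y / √(‖x - y‖ ^ 2 + d ^ 2) ^ 3) • (y - x)‖ ≤ |q y| * (d ^ 2)⁻¹ := by
  have hs : 0 < √(‖x - y‖ ^ 2 + d ^ 2) := sqrtPos (x - y) hd
  have h1 := sqrtGe (x - y) hd
  have h2 := sqrtGeN (x - y) d
  rw [norm_smul, norm_div, norm_pow, Real.norm_of_nonneg hs.le, Real.norm_eq_abs,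
    norm_sub_rev y x, div_mul_eq_mul_div, mul_div_assoc]
  refine mul_le_mul_of_nonneg_left ?_ (abs_nonneg _)
  rw [div_le_iff₀ (by positivity), ← div_eq_inv_mul, le_div_iff₀ (by positivity)]
  calc ‖x - y‖ * d ^ 2 ≤ √(‖x - y‖ ^ 2 + d ^ 2) * √(‖x - y‖ ^ 2 + d ^ 2) ^ 2 := by
        gcongr
    _ = √(‖x - y‖ ^ 2 + d ^ 2) ^ 3 := by ring

theorem integrableFieldR (q : E3 → ℝ) (hq : BC q) {d : ℝ} (hd : 0 < d) (x : E3) :
    Integrable (fun y => (q y / √(‖x - y‖ ^ 2 + d ^ 2) ^ 3) • (y - x)) :=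
  ((integrableInd q hq).mul_const ((d ^ 2)⁻¹)).mono' (measFieldR q hq d x).aestronglyMeasurable
    (ae_of_all _ (fun y => normFieldR q hd x y))

theorem continuousFieldR (q : E3 → ℝ) (hq : BC q) {d : ℝ} (hd : 0 < d) :
    Continuous (fieldR q d) := by
  refine continuous_of_dominated (fun x => (measFieldR q hq d x).aestronglyMeasurable)
    (fun x => ae_of_all _ (fun y => normFieldR q hd x y))
    ((integrableInd q hq).mul_const ((d ^ 2)⁻¹)) (ae_of_all _ (fun y => ?_))
  have h1 : Continuous (fun x : E3 => √(‖x - y‖ ^ 2 + d ^ 2) ^ 3) := by fun_prop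
  have h2 : ∀ x : E3, √(‖x - y‖ ^ 2 + d ^ 2) ^ 3 ≠ 0 := fun x =>
    (pow_pos (sqrtPos (x - y) hd) 3).ne'
  exact (continuous_const.div h1 h2).smul (by fun_prop)

theorem measDualR (q : E3 → ℝ) (hq : BC q) {d : ℝ} (hd : 0 < d) (x : E3) :
    AEStronglyMeasurable
      (fun y : E3 => (q y / √(‖x - y‖ ^ 2 + d ^ 2) ^ 3) • innerSL ℝ (y - x)) volume := by
  have h := (innerSL ℝ (E := E3)).continuous.comp_aestronglyMeasurable
    (integrableFieldR q hq hd x).aestronglyMeasurable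
  refine h.congr (ae_of_all _ (fun y => ?_))
  ext v
  simp only [smul_apply, innerSL_apply_apply, smul_eq_mul]
  rw [real_inner_smul_left]

theorem normDualR (c : ℝ) (v : E3) : ‖c • innerSL ℝ v‖ = ‖c • v‖ := by
  rw [norm_smul, norm_smul, innerSL_apply_norm]

theorem hasFDerivPotR (q : E3 → ℝ) (hq : BC q) {d : ℝ} (hd : 0 < d) (x : E3) :
    HasFDerivAt (potR q d) (InnerProductSpace.toDual ℝ E3 (fieldR q d x)) x := by
  have key := hasFDerivAt_integral_of_dominated_of_fderiv_le (μ := (volume : Measure E3))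
    (F := fun (x : E3) (y : E3) => q y * (√(‖x - y‖ ^ 2 + d ^ 2))⁻¹)
    (F' := fun (x : E3) (y : E3) => (q y / √(‖x - y‖ ^ 2 + d ^ 2) ^ 3) • innerSL ℝ (y - x))
    (x₀ := x) (s := univ) (bound := fun y => |q y| * (d ^ 2)⁻¹) univ_mem
    (Eventually.of_forall (fun x => (integrablePotR q hq hd x).aestronglyMeasurable))
    (integrablePotR q hq hd x) ?_ (ae_of_all _ (fun y x _ => ?_))
    ((integrableInd q hq).mul_const ((d ^ 2)⁻¹)) (ae_of_all _ (fun y x _ => ?_))
  · refine key.congr_fderiv ?_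
    ext v
    rw [InnerProductSpace.toDual_apply_apply, fieldR, real_inner_comm,
      ← integral_inner (integrableFieldR q hq hd x)]
    rw [ContinuousLinearMap.integral_apply]
    · refine integral_congr_ae (ae_of_all _ (fun y => ?_))
      simp only [smul_apply, innerSL_apply_apply, smul_eq_mul]
      rw [real_inner_smul_right, real_inner_comm]
    · exact (integrableFieldR q hq hd x).norm.mono' (measDualR q hq hd x)
        (ae_of_all _ (fun y => (normDualR _ _).le))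
  · exact measDualR q hq hd x
  · rw [normDualR]
    exact normFieldR q hd x y
  · exact hasFDerivKer y x (q y) hd

/-! ### Convergence of the regularised quantities -/

theorem kerDiff {a d : ℝ} (ha : 0 < a) (hd : 0 < d) :
    |(√(a ^ 2 + d ^ 2))⁻¹ - a⁻¹| ≤ d * a ^ (-2 : ℝ) := by
  set s := √(a ^ 2 + d ^ 2) with hs
  have h1 : a ≤ s := by
    apply Real.le_sqrt_of_sq_le
    nlinarith [sq_nonneg d]
  have h2 : s ≤ a + d := sqrtLe ha.le hd.le
  have hs0 : 0 < s := lt_of_lt_of_le ha h1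
  rw [abs_sub_comm, abs_of_nonneg (sub_nonneg.mpr (inv_anti₀ ha h1)),
    show (-2 : ℝ) = -((2 : ℕ) : ℝ) by norm_num, Real.rpow_neg ha.le, Real.rpow_natCast,
    inv_sub_inv ha.ne' hs0.ne', ← div_eq_mul_inv, div_le_div_iff₀ (by positivity) (by positivity)]
  have h3 : s - a ≤ d := by linarith
  nlinarith [mul_nonneg (sub_nonneg.mpr h3) (sq_nonneg a), mul_nonneg (mul_nonneg hd.le ha.le)
    (sub_nonneg.mpr h1)]

theorem fieldDiff {a d : ℝ} (ha : 0 < a) (hd : 0 < d) :
    |(√(a ^ 2 + d ^ 2) ^ 3)⁻¹ - (a ^ 3)⁻¹| * a ≤ 3 * √d * a ^ (-(5 / 2) : ℝ) := by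
  set s := √(a ^ 2 + d ^ 2) with hs
  have h1 : a ≤ s := by
    apply Real.le_sqrt_of_sq_le
    nlinarith [sq_nonneg d]
  have h2 : s ≤ a + d := sqrtLe ha.le hd.le
  have hs0 : 0 < s := lt_of_lt_of_le ha h1
  have h3 : (s - a) / s ≤ √(d / a) := by
    apply Real.le_sqrt_of_sq_le
    have h4 : (s - a) / s ≤ 1 := by
      rw [div_le_one hs0]
      linarith
    have h5 : 0 ≤ (s - a) / s := div_nonneg (by linarith) hs0.le
    have h6 : (s - a) / s ≤ d / a := by
      rw [div_le_div_iff₀ hs0 ha]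
      nlinarith
    nlinarith
  have h4 : a ^ (-(5 / 2) : ℝ) = (a ^ 2)⁻¹ * (√a)⁻¹ := by
    rw [Real.sqrt_eq_rpow, ← Real.rpow_natCast, ← Real.rpow_neg ha.le, ← Real.rpow_neg ha.le,
      ← Real.rpow_add ha]
    norm_num
  have h5 : √(d / a) = √d * (√a)⁻¹ := by
    rw [Real.sqrt_div hd.le, div_eq_mul_inv]
  rw [abs_sub_comm, abs_of_nonneg (sub_nonneg.mpr (inv_anti₀ (by positivity)
    (pow_le_pow_left₀ ha.le h1 3))), h4]
  have h6 : ((a ^ 3)⁻¹ - (s ^ 3)⁻¹) * a ≤ 3 * ((s - a) / s) * (a ^ 2)⁻¹ := by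
    rw [inv_sub_inv (by positivity) (by positivity)]
    rw [div_mul_eq_mul_div, ← div_eq_mul_inv, ← mul_div_assoc, div_div,
      div_le_div_iff₀ (by positivity) (by positivity)]
    have h7 : s ^ 3 - a ^ 3 ≤ (s - a) * (3 * s ^ 2) := by
      nlinarith [mul_nonneg (sub_nonneg.mpr h1) (mul_nonneg (sub_nonneg.mpr h1) hs0.le),
        mul_nonneg (sub_nonneg.mpr h1) (mul_nonneg (sub_nonneg.mpr h1) ha.le)]
    calc (s ^ 3 - a ^ 3) * a * (s * a ^ 2) = (s ^ 3 - a ^ 3) * (s * a ^ 3) := by ring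
      _ ≤ ((s - a) * (3 * s ^ 2)) * (s * a ^ 3) :=
          mul_le_mul_of_nonneg_right h7 (by positivity)
      _ = 3 * (s - a) * (a ^ 3 * s ^ 3) := by ring
  calc ((a ^ 3)⁻¹ - (s ^ 3)⁻¹) * a ≤ 3 * ((s - a) / s) * (a ^ 2)⁻¹ := h6
    _ ≤ 3 * √(d / a) * (a ^ 2)⁻¹ := by gcongr
    _ = 3 * √d * ((a ^ 2)⁻¹ * (√a)⁻¹) := by
      rw [h5]
      ring

theorem potRDiff (q : E3 → ℝ) (hq : BC q) (x : E3) :
    ∃ C : ℝ, ∀ d : ℝ, 0 < d → |potR q d x - pot q x| ≤ C * d := by
  obtain ⟨C, hC0, hC⟩ := kernInt q hq 2 (by norm_num) (by norm_num)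
  refine ⟨C, fun d hd => ?_⟩
  rw [potR, pot, ← integral_sub (integrablePotR q hq hd x) (integrablePot q hq x),
    ← Real.norm_eq_abs]
  calc ‖∫ y, (q y * (√(‖x - y‖ ^ 2 + d ^ 2))⁻¹ - q y / ‖x - y‖)‖
      ≤ ∫ y, (|q y| * ‖x - y‖ ^ (-2 : ℝ)) * d := by
        refine norm_integral_le_of_norm_le ((hC x).1.mul_const d) ?_
        have h0 : ∀ᵐ y : E3, y ≠ x := by
          rw [ae_iff]
          simp
        filter_upwards [h0] with y hy
        have hpos : 0 < ‖x - y‖ := norm_pos_iff.mpr (sub_ne_zero.mpr (Ne.symm hy))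
        rw [div_eq_mul_inv, ← mul_sub, norm_mul, Real.norm_eq_abs, Real.norm_eq_abs, mul_assoc]
        refine mul_le_mul_of_nonneg_left ?_ (abs_nonneg _)
        rw [mul_comm]
        exact kerDiff hpos hd
    _ = (∫ y, |q y| * ‖x - y‖ ^ (-2 : ℝ)) * d := integral_mul_const _ _
    _ ≤ C * d := mul_le_mul_of_nonneg_right (hC x).2 hd.le

theorem fieldRDiff (q : E3 → ℝ) (hq : BC q) :
    ∃ C : ℝ, ∀ d : ℝ, 0 < d → ∀ x : E3, ‖fieldR q d x - field q x‖ ≤ C * √d := by
  obtain ⟨C, hC0, hC⟩ := kernInt q hq (5 / 2) (by norm_num) (by norm_num)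
  refine ⟨C * 3, fun d hd x => ?_⟩
  rw [fieldR, field, ← integral_sub (integrableFieldR q hq hd x) (integrableField q hq x)]
  calc ‖∫ y, ((q y / √(‖x - y‖ ^ 2 + d ^ 2) ^ 3) • (y - x) - (q y / ‖x - y‖ ^ 3) • (y - x))‖
      ≤ ∫ y, (|q y| * ‖x - y‖ ^ (-(5 / 2) : ℝ)) * (3 * √d) := by
        refine norm_integral_le_of_norm_le ((hC x).1.mul_const _) ?_
        have h0 : ∀ᵐ y : E3, y ≠ x := by
          rw [ae_iff]
          simp
        filter_upwards [h0] with y hy
        have hpos : 0 < ‖x - y‖ := norm_pos_iff.mpr (sub_ne_zero.mpr (Ne.symm hy))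
        rw [← sub_smul, div_eq_mul_inv, div_eq_mul_inv, ← mul_sub, norm_smul, norm_mul,
          Real.norm_eq_abs, Real.norm_eq_abs, mul_assoc, mul_assoc, norm_sub_rev y x]
        refine mul_le_mul_of_nonneg_left ?_ (abs_nonneg _)
        refine (fieldDiff hpos hd).trans (le_of_eq ?_)
        ring
    _ = (∫ y, |q y| * ‖x - y‖ ^ (-(5 / 2) : ℝ)) * (3 * √d) := integral_mul_const _ _
    _ ≤ C * (3 * √d) := mul_le_mul_of_nonneg_right (hC x).2 (by positivity)
    _ = C * 3 * √d := by ring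

/-- The sequence of regularisation parameters. -/
noncomputable def dseq (n : ℕ) : ℝ := 1 / ((n : ℝ) + 1)

theorem dseq_pos (n : ℕ) : 0 < dseq n := by
  unfold dseq
  positivity

theorem dseq_tendsto : Tendsto dseq atTop (𝓝 0) := tendsto_one_div_add_atTop_nhds_zero_nat

theorem fieldUnif (q : E3 → ℝ) (hq : BC q) :
    TendstoUniformly (fun n x => fieldR q (dseq n) x) (field q) atTop := by
  obtain ⟨C, hC⟩ := fieldRDiff q hq
  have h1 : Tendsto (fun n => C * √(dseq n)) atTop (𝓝 0) := by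
    have := ((Real.continuous_sqrt.tendsto 0).comp dseq_tendsto).const_mul C
    simpa using this
  rw [Metric.tendstoUniformly_iff]
  intro ε hε
  filter_upwards [h1.eventually (gt_mem_nhds hε)] with n hn x
  rw [dist_comm, dist_eq_norm]
  exact lt_of_le_of_lt (hC _ (dseq_pos n) x) hn

theorem continuousField (q : E3 → ℝ) (hq : BC q) : Continuous (field q) :=
  (fieldUnif q hq).continuous
    (Eventually.frequently (Eventually.of_forall (fun n => continuousFieldR q hq (dseq_pos n))))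

theorem hasGradientPot (q : E3 → ℝ) (hq : BC q) (x : E3) :
    HasGradientAt (pot q) (field q x) x := by
  rw [hasGradientAt_iff_hasFDerivAt]
  refine hasFDerivAt_of_tendstoUniformly (l := atTop) (f := fun n => potR q (dseq n))
    (f' := fun n x => InnerProductSpace.toDual ℝ E3 (fieldR q (dseq n) x))
    (g' := fun x => InnerProductSpace.toDual ℝ E3 (field q x)) ?_
    (fun n x => hasFDerivPotR q hq (dseq_pos n) x) (fun x => ?_) x
  · have h := fieldUnif q hq
    rw [Metric.tendstoUniformly_iff] at h ⊢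
    intro ε hε
    filter_upwards [h ε hε] with n hn x
    rw [(InnerProductSpace.toDual ℝ E3).dist_map]
    exact hn x
  · obtain ⟨C, hC⟩ := potRDiff q hq x
    rw [tendsto_iff_dist_tendsto_zero]
    have h1 : Tendsto (fun n => C * dseq n) atTop (𝓝 0) := by
      have := dseq_tendsto.const_mul C
      simpa using this
    exact squeeze_zero (fun n => dist_nonneg)
      (fun n => by rw [Real.dist_eq]; exact hC _ (dseq_pos n)) h1

/-- Module POT. -/
theorem potStatement : PotStatement := by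
  intro q hq
  refine ⟨integrablePot q hq, integrableField q hq, decay q hq, ?_, hasGradientPot q hq⟩
  rw [contDiff_one_iff_hasFDerivAt]
  refine ⟨fun x => InnerProductSpace.toDual ℝ E3 (field q x), ?_, fun x => ?_⟩
  · exact (InnerProductSpace.toDual ℝ E3).continuous.comp (continuousField q hq)
  · exact (hasGradientAt_iff_hasFDerivAt.mp (hasGradientPot q hq x))

end Pool.Agent.Lib.MP_405077_mp.H61
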